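import Mathlib

set_option autoImplicit false

namespace Pool.Agent.Results.MP_708c97_co.Counter

open Finset

/-- every cycle `f 0, f 1, …, f (m + 3)` of length `m + 4 ≥ 4` has a chord -/
def Chordal {V : Type} (G : SimpleGraph V) : Prop :=
  ∀ (m : ℕ) (f : Fin (m + 4) → V), Function.Injective f → (∀ i, G.Adj (f i) (f (i + 1))) →
    ∃ i j, j ≠ i + 1 ∧ i ≠ j + 1 ∧ G.Adj (f i) (f j)

/-- `S` meets every path on `k` vertices -/
def IsCover {V : Type} (G : SimpleGraph V) (k : ℕ) (S : Finset V) : Prop :=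
  ∀ g : Fin k → V, Function.Injective g →
    (∀ i j : Fin k, i.val + 1 = j.val → G.Adj (g i) (g j)) → ∃ i, g i ∈ S

/-- the `k`-path vertex cover number -/
noncomputable def psi {V : Type} (G : SimpleGraph V) (k : ℕ) : ℕ :=
  sInf {s | ∃ S : Finset V, IsCover G k S ∧ S.card = s}

def E : List (ℕ × ℕ) := [(0, 1), (0, 2), (1, 2), (0, 3), (1, 3), (1, 4), (2, 4), (0, 5), (3, 5),
  (3, 6), (5, 6), (5, 7), (6, 7), (5, 8), (7, 8), (6, 9), (7, 9), (0, 10), (2, 10), (0, 11),
  (10, 11), (6, 12), (9, 12), (6, 13), (12, 13), (12, 14), (13, 14), (2, 15), (4, 15), (2, 16),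
  (4, 16)]

def adj (a b : ℕ) : Bool := E.any fun e => (e.1 == a && e.2 == b) || (e.1 == b && e.2 == a)

theorem adj_symm : ∀ a b : Fin 17, adj a b = true → adj b a = true := by decide +kernel
theorem adj_irr : ∀ a : Fin 17, ¬ adj a a = true := by decide +kernel

def G : SimpleGraph (Fin 17) where
  Adj a b := adj a b = true
  symm := ⟨fun a b h => adj_symm a b h⟩
  loopless := ⟨adj_irr⟩

instance : DecidableRel G.Adj := fun a b => inferInstanceAs (Decidable (adj a b = true))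

theorem peo : ∀ v a b : Fin 17, a < v → b < v → a ≠ b → G.Adj v a → G.Adj v b → G.Adj a b := by
  decide +kernel

theorem chordal : Chordal G := fun m f hf hc => by
  obtain ⟨i, -, hi⟩ := exists_max_image univ f univ_nonempty
  have h1 : (1 : Fin (m + 4)) ≠ 0 := by simp
  have h2 : (1 + 1 : Fin (m + 4)) ≠ 0 := by
    intro h; have := congrArg Fin.val h
    rw [Fin.val_add, Nat.mod_eq_of_lt (by simp)] at this; simp at this
  have h3 : (1 + 1 + 1 : Fin (m + 4)) ≠ 0 := by
    intro h; have := congrArg Fin.val h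
    have e : ((1 + 1 : Fin (m + 4)) : ℕ) = 2 := by
      rw [Fin.val_add, Nat.mod_eq_of_lt (by simp)]; simp
    rw [Fin.val_add, e, Nat.mod_eq_of_lt (by simp)] at this; simp at this
  have a1 : G.Adj (f i) (f (i - 1)) := by simpa using (hc (i - 1)).symm
  refine ⟨i - 1, i + 1, fun h => h1 (by rwa [sub_add_cancel, add_eq_left] at h),
    fun h => h3 (by rw [sub_eq_iff_eq_add, add_assoc, add_assoc, left_eq_add, ← add_assoc] at h; exact h),
   
    peo (f i) _ _ (lt_of_le_of_ne (hi _ (mem_univ _)) a1.ne') 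
      (lt_of_le_of_ne (hi _ (mem_univ _)) (hc i).ne')
      (fun h => h2 (by have := hf h; rwa [sub_eq_iff_eq_add, add_assoc, left_eq_add] at this)) a1 (hc i)⟩

def L : List (Fin 6 → Fin 17) := [![0, 1, 2, 15, 4, 16], ![3, 5, 6, 7, 9, 12], ![2, 10, 11, 0, 5, 8],
  ![4, 1, 3, 6, 13, 14], ![8, 7, 9, 12, 13, 14], ![13, 6, 3, 0, 2, 15], ![8, 5, 3, 1, 4, 16],
  ![11, 10, 2, 15, 4, 16], ![10, 0, 5, 6, 12, 14], ![10, 11, 0, 1, 4, 15], ![5, 8, 7, 6, 13, 14],
  ![1, 0, 11, 10, 2, 16], ![8, 5, 3, 1, 2, 15], ![8, 5, 6, 9, 12, 13], ![3, 6, 12, 9, 7, 8],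
  ![5, 7, 9, 12, 13, 14], ![10, 11, 0, 3, 6, 13], ![9, 7, 8, 5, 0, 11], ![3, 0, 2, 15, 4, 16],
  ![2, 1, 3, 6, 13, 14], ![5, 6, 7, 9, 12, 14], ![8, 5, 3, 0, 10, 11]]

theorem L_path (g : Fin 6 → Fin 17) (hg : g ∈ L) : Function.Injective g ∧
    ∀ i j : Fin 6, i.val + 1 = j.val → G.Adj (g i) (g j) := by
  have h : (L.all fun g => (List.finRange 6).all fun i => (List.finRange 6).all fun j =>
      (g i != g j || i == j) && (i.val + 1 != j.val || adj (g i) (g j))) = true := by decide +kernel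
  simp only [List.all_eq_true, Bool.and_eq_true, Bool.or_eq_true, bne_iff_ne, beq_iff_eq] at h
  exact ⟨fun i j e => ((h g hg i (List.mem_finRange i) j (List.mem_finRange j)).1).resolve_left
    (fun c => c e), fun i j e => ((h g hg i (List.mem_finRange i) j (List.mem_finRange j)).2).resolve_left
    (fun c => c e)⟩

def cov : ℕ → List (Fin 6 → Fin 17) → Bool
  | _, [] => false
  | 0, _ :: _ => true
  | r + 1, g :: l => (List.finRange 6).all fun i =>
      cov r (l.filter fun h => (List.finRange 6).all fun j => h j != g i)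

theorem cov_spec : ∀ (r : ℕ) (l : List (Fin 6 → Fin 17)) (S : Finset (Fin 17)), cov r l = true →
    (∀ g ∈ l, ∃ i, g i ∈ S) → r < S.card
  | 0, [], _, h, _ => by simp [cov] at h
  | _ + 1, [], _, h, _ => by simp [cov] at h
  | 0, g :: _, S, _, hs => by
      obtain ⟨i, hi⟩ := hs g (by simp)
      exact card_pos.2 ⟨_, hi⟩
  | r + 1, g :: l, S, h, hs => by
      obtain ⟨i, hi⟩ := hs g (by simp)
      simp only [cov, List.all_eq_true] at h
      have := cov_spec r _ (S.erase (g i)) (h i (List.mem_finRange i)) fun k hk => by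
        simp only [List.mem_filter, List.all_eq_true, bne_iff_ne] at hk
        obtain ⟨j, hj⟩ := hs k (List.mem_cons_of_mem _ hk.1)
        exact ⟨j, mem_erase.2 ⟨hk.2 j (List.mem_finRange j), hj⟩⟩
      rw [card_erase_of_mem hi] at this
      omega

theorem psi_ge : 5 ≤ psi G 6 :=
  le_csInf ⟨_, univ, fun g _ _ => ⟨0, mem_univ _⟩, rfl⟩ fun _ ⟨S, hS, e⟩ =>
    e ▸ cov_spec 4 L S (by decide +kernel) fun g hg => hS g (L_path g hg).1 (L_path g hg).2

theorem no4' : ∀ a b : Fin 17, G.Adj a b → ∀ c : Fin 17, G.Adj a c ∧ G.Adj b c →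
    ∀ d : Fin 17, ¬ (G.Adj a d ∧ G.Adj b d ∧ G.Adj c d) := by decide +kernel

theorem no4 (a b c d : Fin 17) (h1 : G.Adj a b) (h2 : G.Adj a c) (h3 : G.Adj b c) (h4 : G.Adj a d)
    (h5 : G.Adj b d) (h6 : G.Adj c d) : False := no4' a b h1 c ⟨h2, h3⟩ d ⟨h4, h5, h6⟩

theorem omega3 : G.cliqueNum = 3 := by
  have t3 : G.IsClique (({0, 1, 2} : Finset (Fin 17)) : Set (Fin 17)) := by decide +kernel
  refine le_antisymm ?_ (SimpleGraph.IsClique.card_le_cliqueNum (tc := t3))
  obtain ⟨s, hs⟩ := G.exists_isNClique_cliqueNum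
  by_contra c
  obtain ⟨t, ht, h4⟩ := exists_subset_card_eq (s := s) (n := 4) (by rw [hs.2]; omega)
  obtain ⟨a, b, c, d, ab, ac, ad, bc, bd, cd, rfl⟩ := card_eq_four.1 h4
  have k := hs.1.subset (coe_subset.2 ht)
  exact no4 a b c d (k (by simp) (by simp) ab) (k (by simp) (by simp) ac) (k (by simp) (by simp) bc)
    (k (by simp) (by simp) ad) (k (by simp) (by simp) bd) (k (by simp) (by simp) cd)

theorem result : ¬ ∀ (k n : ℕ) (G : SimpleGraph (Fin n)), 3 ≤ k → Chordal G →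
    (psi G k : ℝ) ≤ ((G.cliqueNum : ℝ) - 1) / (G.cliqueNum + k - 2) * n := fun h => by
  have h1 := h 6 17 G (by norm_num) chordal
  have h2 : (5 : ℝ) ≤ psi G 6 := by exact_mod_cast psi_ge
  rw [omega3] at h1
  norm_num at h1
  linarith

end Pool.Agent.Results.MP_708c97_co.Counter
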